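import Mathlib
import Pool.Agent.K4H98.Rel.Low
import Pool.Agent.Results.MP_90b327_co.VectorThreshold
import Pool.Agent.Results.MP_90b327_co.FourCycleThreshold

set_option autoImplicit false

/-!
# Relational structures, hypergraphs and restricted sizes

The critical density of the restricted density polynomial Hales-Jewett problem in dimension `d` is
also the critical density of its version for colourings of finite relational structures of maximal
arity `d` (any number of relations, any number of colours, any number of cells over each set of at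
most `d` points), it is an upper bound for the version for `d`-uniform hypergraphs without degenerate
cells (for `d = 2`: two graphs which differ in a clique), and it does not change if the sizes `|γ|`
are restricted to a set which contains arbitrarily large finite sets of sums.
-/

namespace Pool.Agent.Results.MP_90b327_co.RelationalForms

open Finset

/-- `cube d γ` is `γ^d`, the set of all `d`-tuples with entries in `γ`. -/
def cube {N : ℕ} (d : ℕ) (γ : Finset (Fin N)) : Finset (Fin d → Fin N) :=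
  Fintype.piFinset (fun _ : Fin d => γ)

/-- A family `S` of subsets of `[N]^d` is good if there are `A ∈ S` and a nonempty `γ ⊆ [N]` with
`A ∩ γ^d = ∅` and `A ∪ γ^d ∈ S`. -/
def Good {N d : ℕ} (S : Finset (Finset (Fin d → Fin N))) : Prop :=
  ∃ A ∈ S, ∃ γ : Finset (Fin N), γ.Nonempty ∧ Disjoint A (cube d γ) ∧ A ∪ cube d γ ∈ S

/-- A system of degree `d` on `[N]`: cells `c ∈ C` with supports `supp c ⊆ [N]`, which are nonempty
and have at most `d` elements; every `d`-element set is the support of a cell, and every set is the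
support of at most `K` cells. -/
def System (d K : ℕ) {N : ℕ} {C : Type} [Fintype C] (supp : C → Finset (Fin N)) : Prop :=
  (∀ c, (supp c).Nonempty ∧ (supp c).card ≤ d) ∧
  (∀ E : Finset (Fin N), E.card = d → ∃ c, supp c = E) ∧
  ∀ E : Finset (Fin N), (univ.filter fun c => supp c = E).card ≤ K

/-- The supports are nonempty and every nonempty set with at most `d` elements is the support of a
cell. -/
def Complete (d : ℕ) {N : ℕ} {C : Type} (supp : C → Finset (Fin N)) : Prop :=
  (∀ c, (supp c).Nonempty) ∧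
  ∀ E : Finset (Fin N), E.Nonempty → E.card ≤ d → ∃ c, supp c = E

/-- A family `S` of colourings of the cells by the colours in `Q` is good, for sizes in `L` and for
the colours `a c ≠ b c` of the cells, if it contains colourings `x` and `y` for which there is
`γ ⊆ [N]` with `|γ| ∈ L`, with at least one cell inside `γ`, such that `x c = a c` and `y c = b c` for
all cells inside `γ` and `x = y` on all other cells. -/
def GoodIn {N : ℕ} {C Q : Type} (supp : C → Finset (Fin N)) (a b : C → Q) (L : Set ℕ)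
    (S : Finset (C → Q)) : Prop :=
  ∃ x ∈ S, ∃ y ∈ S, ∃ γ : Finset (Fin N), γ.card ∈ L ∧ (∃ c, supp c ⊆ γ) ∧
    ∀ c, (supp c ⊆ γ → x c = a c ∧ y c = b c) ∧ (¬ supp c ⊆ γ → y c = x c)

/-- `L` contains, for every `r`, all sums of subsets of some `r` positive integers. -/
def SumSizes (L : Set ℕ) : Prop :=
  ∀ r : ℕ, ∃ n : Fin r → ℕ, (∀ j, 1 ≤ n j) ∧
    ∀ T : Finset (Fin r), T.Nonempty → ∑ j ∈ T, n j ∈ L

/-- The tuples of a relational language with `m` relations of the arities `ar j`, on the points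
`[N]`. -/
abbrev Tuples {m : ℕ} (ar : Fin m → ℕ) (N : ℕ) : Type := Σ j : Fin m, (Fin (ar j) → Fin N)

/-- The set of entries of a tuple. -/
def entries {m : ℕ} (ar : Fin m → ℕ) (N : ℕ) (c : Tuples ar N) : Finset (Fin N) := univ.image c.2

/-- The `d`-element subsets of `[N]`. -/
abbrev Edges (d N : ℕ) : Type := {E : Finset (Fin N) // E.card = d}

/-- The density above which Q1 is proved in `VectorThreshold` (`d = 1, 2`) and in
`FourCycleThreshold` (`d ≥ 3`): `0` for `d = 1`, `0.3223` for `d = 2`, `2^(d-2)/(2^(d-1)+1)` for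
`d ≥ 3`. -/
noncomputable def thr (d : ℕ) : ℝ :=
  if d = 1 then 0 else if d = 2 then 3223 / 10000 else (2 : ℝ) ^ (d - 2) / (2 ^ (d - 1) + 1)

lemma thr_good (d : ℕ) (hd : 1 ≤ d) (δ : ℝ) (hδ : thr d < δ) : ∃ N₀ : ℕ, ∀ N : ℕ, N₀ ≤ N →
    ∀ S : Finset (Finset (Fin d → Fin N)), δ * (2 : ℝ) ^ (N ^ d) < S.card → Good S := by
  unfold thr at hδ
  by_cases h1 : d = 1
  · rw [if_pos h1] at hδ
    subst h1
    refine Pool.Agent.Results.MP_90b327_co.VectorThreshold.result 1 le_rfl δ ?_
    unfold Pool.Agent.Results.MP_90b327_co.VectorThreshold.threshold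
    norm_num
    exact hδ
  · rw [if_neg h1] at hδ
    by_cases h2 : d = 2
    · rw [if_pos h2] at hδ
      subst h2
      refine Pool.Agent.Results.MP_90b327_co.VectorThreshold.result 2 (by norm_num) δ ?_
      unfold Pool.Agent.Results.MP_90b327_co.VectorThreshold.threshold
      rw [if_pos rfl]
      exact hδ
    · rw [if_neg h2] at hδ
      exact Pool.Agent.Results.MP_90b327_co.FourCycleThreshold.result d (by omega) δ hδ

/-- sizes which are sums of at least `d` terms -/
lemma sumSizes_big {L : Set ℕ} (hL : SumSizes L) (d r : ℕ) : ∃ n : Fin r → ℕ, (∀ j, d ≤ n j) ∧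
    ∀ T : Finset (Fin r), T.Nonempty → ∑ j ∈ T, n j ∈ L ∨ d = 0 := by
  classical
  rcases Nat.eq_zero_or_pos d with h0 | hd
  · exact ⟨fun _ => 0, fun _ => by omega, fun _ _ => Or.inr h0⟩
  obtain ⟨n, hn, hT⟩ := hL (r * d)
  refine ⟨fun j => ∑ i : Fin d, n (finProdFinEquiv (j, i)), fun j => ?_, fun T hTn => Or.inl ?_⟩
  · calc d = ∑ _i : Fin d, 1 := by simp
      _ ≤ _ := sum_le_sum fun i _ => hn _
  · have h1 : ∑ j ∈ T, ∑ i : Fin d, n (finProdFinEquiv (j, i))
        = ∑ k ∈ (T ×ˢ (univ : Finset (Fin d))).image finProdFinEquiv, n k := by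
      rw [sum_image (fun x _ y _ h => finProdFinEquiv.injective h), sum_product]
    rw [h1]
    refine hT _ ?_
    obtain ⟨j, hj⟩ := hTn
    exact ⟨finProdFinEquiv (j, (⟨0, hd⟩ : Fin d)),
      mem_image_of_mem _ (mem_product.2 ⟨hj, mem_univ _⟩)⟩

lemma tuples_system {d m : ℕ} (ar : Fin m → ℕ) (h1 : ∀ j, 1 ≤ ar j ∧ ar j ≤ d)
    (h2 : ∃ j, ar j = d) (N : ℕ) : System d (m * d ^ d) (entries ar N) ∧
      Complete d (entries ar N) := by
  classical
  obtain ⟨j₀, hj₀⟩ := h2
  have hne : ∀ c, (entries ar N c).Nonempty := fun c =>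
    Pool.Agent.K4H98.Rel.tsupp_nonempty (h1 c.1).1 c.2
  have hex : ∀ E : Finset (Fin N), 1 ≤ E.card → E.card ≤ d → ∃ c, entries ar N c = E := by
    intro E hE1 hE2
    obtain ⟨t, ht⟩ := Pool.Agent.K4H98.Rel.exists_tsupp (d := ar j₀) E hE1 (by rw [hj₀]; exact hE2)
    exact ⟨⟨j₀, t⟩, ht⟩
  refine ⟨⟨fun c => ⟨hne c, (Pool.Agent.K4H98.Rel.tsupp_card c.2).trans (h1 c.1).2⟩,
    fun E hE => ?_, fun E => ?_⟩, hne, fun E hE1 hE2 => hex E (card_pos.2 hE1) hE2⟩
  · have hd : 1 ≤ d := (h1 j₀).1.trans (h1 j₀).2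
    exact hex E (by omega) hE.le
  · have h3 : (univ.filter fun c : Tuples ar N => entries ar N c = E)
        = univ.sigma fun j : Fin m => univ.filter fun t : Fin (ar j) → Fin N =>
          Pool.Agent.K4H98.Rel.tsupp t = E := by
      ext ⟨j, t⟩
      simp only [mem_filter, mem_univ, true_and, mem_sigma]
      exact Iff.rfl
    rw [h3, card_sigma]
    calc ∑ j : Fin m, (univ.filter fun t : Fin (ar j) → Fin N =>
          Pool.Agent.K4H98.Rel.tsupp t = E).card
        ≤ ∑ _j : Fin m, d ^ d :=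
          sum_le_sum fun j _ => Pool.Agent.K4H98.Rel.tsupp_count (h1 j).2 E
      _ = m * d ^ d := by simp

lemma edges_system {d : ℕ} (hd : 1 ≤ d) (N : ℕ) :
    System d 1 (fun c : Edges d N => c.1) := by
  classical
  refine ⟨fun c => ⟨card_pos.1 (by rw [c.2]; omega), c.2.le⟩, fun E hE => ⟨⟨E, hE⟩, rfl⟩,
    fun E => ?_⟩
  rw [card_le_one]
  intro c hc c' hc'
  exact Subtype.ext ((mem_filter.1 hc).2.trans (mem_filter.1 hc').2.symm)

/-- **Theorem.** For every `d ≥ 1` there is a number `θ_d`, `0 ≤ θ_d ≤ thr d`, such that: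

(1) `θ_d` is the critical density of the restricted density polynomial Hales-Jewett problem: for every
`δ > θ_d` and all large `N` all families of density at least `δ` of subsets of `[N]^d` are good, and
for every `N` some family of density at least `θ_d` is not good. (Q1 says that all `θ_d` are `0`.)

(2) For all `K`, `q`, all `δ > θ_d` and all sets `L` of sizes which contain for every `r` all sums of
subsets of some `r` positive integers: if `N` is large, then for every system of degree `d` on `[N]`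
with at most `K` cells over each set, for every set `Q` of at most `q` colours and for all choices of
two different colours `a c`, `b c` for each cell, every family of colourings of the cells of density
at least `δ` is good, with `|γ| ∈ L`.

(3) For all `N`, every system of cells on `[N]` with cells over all nonempty sets of at most `d`
points, every set of colours and all choices of `a`, `b` there is a family of colourings of density at
least `θ_d` which is not good.

(4) So `θ_d` is the critical density for the colourings, by a set `Q` of colours with `a ≠ b`, of the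
tuples of every relational language with arities `1 ≤ ar j ≤ d`, at least one of them `d`.

(5) It is an upper bound for the critical density for colourings of the `d`-element subsets of
`[N]`. -/
theorem result (d : ℕ) (hd : 1 ≤ d) : ∃ θd : ℝ, 0 ≤ θd ∧ θd ≤ thr d ∧
    ((∀ δ : ℝ, θd < δ → ∃ N₀ : ℕ, ∀ N : ℕ, N₀ ≤ N → ∀ S : Finset (Finset (Fin d → Fin N)),
        δ * (2 : ℝ) ^ (N ^ d) ≤ S.card → Good S) ∧
      ∀ N : ℕ, ∃ S : Finset (Finset (Fin d → Fin N)), ¬ Good S ∧
        θd * (2 : ℝ) ^ (N ^ d) ≤ S.card) ∧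
    (∀ (K q : ℕ) (δ : ℝ) (L : Set ℕ), θd < δ → SumSizes L → ∃ N₀ : ℕ, ∀ N : ℕ, N₀ ≤ N →
      ∀ (C Q : Type) [Fintype C] [DecidableEq C] [Fintype Q] [DecidableEq Q]
        (supp : C → Finset (Fin N)) (a b : C → Q), System d K supp → Fintype.card Q ≤ q →
        (∀ c, a c ≠ b c) → ∀ S : Finset (C → Q),
          δ * (Fintype.card Q : ℝ) ^ Fintype.card C ≤ S.card → GoodIn supp a b L S) ∧
    (∀ (N : ℕ) (C Q : Type) [Fintype C] [DecidableEq C] [Fintype Q] [DecidableEq Q]
      (supp : C → Finset (Fin N)) (a b : C → Q), Complete d supp → (∀ c, a c ≠ b c) →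
        ∃ S : Finset (C → Q), ¬ GoodIn supp a b Set.univ S ∧
          θd * (Fintype.card Q : ℝ) ^ Fintype.card C ≤ S.card) ∧
    (∀ (m : ℕ) (ar : Fin m → ℕ) (Q : Type) [Fintype Q] [DecidableEq Q] (a b : Q),
      (∀ j, 1 ≤ ar j ∧ ar j ≤ d) → (∃ j, ar j = d) → a ≠ b →
      (∀ (δ : ℝ) (L : Set ℕ), θd < δ → SumSizes L → ∃ N₀ : ℕ, ∀ N : ℕ, N₀ ≤ N →
        ∀ S : Finset (Tuples ar N → Q),
          δ * (Fintype.card Q : ℝ) ^ Fintype.card (Tuples ar N) ≤ S.card →
            GoodIn (entries ar N) (fun _ => a) (fun _ => b) L S) ∧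
      ∀ N : ℕ, ∃ S : Finset (Tuples ar N → Q),
        ¬ GoodIn (entries ar N) (fun _ => a) (fun _ => b) Set.univ S ∧
        θd * (Fintype.card Q : ℝ) ^ Fintype.card (Tuples ar N) ≤ S.card) ∧
    (∀ (Q : Type) [Fintype Q] [DecidableEq Q] (a b : Q) (δ : ℝ) (L : Set ℕ), a ≠ b → θd < δ →
      SumSizes L → ∃ N₀ : ℕ, ∀ N : ℕ, N₀ ≤ N → ∀ S : Finset (Edges d N → Q),
        δ * (Fintype.card Q : ℝ) ^ Fintype.card (Edges d N) ≤ S.card →
          GoodIn (fun c : Edges d N => c.1) (fun _ => a) (fun _ => b) L S) := by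
  classical
  obtain ⟨θd, h0, hle, hup, hlow, hpat⟩ := Pool.Agent.K4H98.Rel.crit_pat d hd
  have hθ1 : θd ≤ 1 := by
    refine hle.trans ?_
    have h1 : (1 : ℝ) < 2 ^ d := one_lt_pow₀ (by norm_num) (by omega)
    rw [div_le_one (by linarith)]
    have h2 : (2 : ℝ) ^ (d - 1) ≤ 2 ^ d := pow_le_pow_right₀ (by norm_num) (by omega)
    linarith
  -- tuples, lower bound
  have hlowN : ∀ N : ℕ, ∃ S : Finset (Finset (Fin d → Fin N)), ¬ Good S ∧
      θd * (2 : ℝ) ^ (N ^ d) ≤ S.card := by
    intro N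
    obtain ⟨S, hS, hSc⟩ := Pool.Agent.K4H98.Rel.exists_npgood hd hθ1 hlow N
    refine ⟨_, fun h => hS (Pool.Agent.K4H98.Rel.pgood_of_goodF h), ?_⟩
    have h3 := Pool.Agent.K4H98.Rel.pull_card S
    have h4 : (0 : ℝ) < 2 ^ Fintype.card (Pool.Agent.K4H98.Rel.Simp d N) := by positivity
    have h5 : (0 : ℝ) < 2 ^ (N ^ d) := by positivity
    refine le_of_mul_le_mul_right ?_ h4
    rw [h3]
    calc θd * 2 ^ (N ^ d) * 2 ^ Fintype.card (Pool.Agent.K4H98.Rel.Simp d N)
        = (θd * 2 ^ Fintype.card (Pool.Agent.K4H98.Rel.Simp d N)) * 2 ^ (N ^ d) := by ring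
      _ ≤ S.card * 2 ^ (N ^ d) := mul_le_mul_of_nonneg_right hSc h5.le
  -- the bound for systems
  have hsys : ∀ (K q : ℕ) (δ : ℝ) (L : Set ℕ), θd < δ → SumSizes L → ∃ N₀ : ℕ, ∀ N : ℕ, N₀ ≤ N →
      ∀ (C Q : Type) [Fintype C] [DecidableEq C] [Fintype Q] [DecidableEq Q]
        (supp : C → Finset (Fin N)) (a b : C → Q), System d K supp → Fintype.card Q ≤ q →
        (∀ c, a c ≠ b c) → ∀ S : Finset (C → Q),
          δ * (Fintype.card Q : ℝ) ^ Fintype.card C ≤ S.card → GoodIn supp a b L S := by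
    intro K q δ L hδ hL
    obtain ⟨θ, hθ⟩ : ∃ θ, θ = (θd + δ) / 2 := ⟨_, rfl⟩
    obtain ⟨r₀, hr₀⟩ := hpat θ (by linarith)
    set r := max r₀ 1 with hr
    obtain ⟨n, hn, hnL⟩ := sumSizes_big hL d r
    have hnL' : ∀ T : Finset (Fin r), T.Nonempty → ∑ j ∈ T, n j ∈ L := fun T hT => by
      rcases hnL T hT with h | h
      · exact h
      · omega
    set κ := K * 2 ^ ∑ j, n j with hκ
    have hfr1 : 1 - 1 / ((q + 1 : ℕ) : ℝ) ^ κ < 1 := by
      have : 0 < 1 / ((q + 1 : ℕ) : ℝ) ^ κ := by positivity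
      linarith
    have hfr0 : 0 ≤ 1 - 1 / ((q + 1 : ℕ) : ℝ) ^ κ := by
      have : 1 / ((q + 1 : ℕ) : ℝ) ^ κ ≤ 1 := by
        rw [div_le_one (by positivity)]
        refine one_le_pow₀ ?_
        push_cast
        have : (0 : ℝ) ≤ q := Nat.cast_nonneg _
        linarith
      linarith
    obtain ⟨R, hR⟩ := exists_pow_lt_of_lt_one (by linarith : 0 < (δ - θ)) hfr1
    refine ⟨max d (R * ∑ j, n j), fun N hN C Q _ _ _ _ supp a b hsy hQ hab S hS => ?_⟩
    by_contra hgood
    obtain ⟨hs1, hs2, hs3⟩ := hsy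
    -- there is a cell
    obtain ⟨E, -, hE⟩ := exists_subset_card_eq (s := (univ : Finset (Fin N))) (n := d)
      (by rw [card_univ, Fintype.card_fin]; exact (le_max_left _ _).trans hN)
    obtain ⟨c, -⟩ := hs2 E hE
    have : Nonempty Q := ⟨a c⟩
    have h1 := Pool.Agent.K4H98.Rel.sys_bound (C := C) (Q := Q) (supp := supp) (a := a) (b := b)
      (K := K) (R := R) (r := r) hd (le_max_right _ _) n hn ((le_max_right _ _).trans hN)
      (fun c => (hs1 c).1) (fun c => (hs1 c).2) hs2 hs3 hab (q := q + 1) (by omega) hnL'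
      (β := θ) (by linarith) (fun S' hS' => by
        by_contra hc
        push Not at hc
        exact hS' (hr₀ r (le_max_left _ _) S' hc.le)) S hgood
    rw [← hκ] at h1
    have h2 : (0 : ℝ) < (Fintype.card Q : ℝ) ^ Fintype.card C := by
      have : (0 : ℝ) < Fintype.card Q := by exact_mod_cast Fintype.card_pos
      positivity
    have h3 : (θ + (1 - 1 / ((q + 1 : ℕ) : ℝ) ^ κ) ^ R) < δ := by linarith
    have h4 := mul_lt_mul_of_pos_right h3 h2
    linarith
  -- the lower bound for systems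
  have hsyl : ∀ (N : ℕ) (C Q : Type) [Fintype C] [DecidableEq C] [Fintype Q] [DecidableEq Q]
      (supp : C → Finset (Fin N)) (a b : C → Q), Complete d supp → (∀ c, a c ≠ b c) →
        ∃ S : Finset (C → Q), ¬ GoodIn supp a b Set.univ S ∧
          θd * (Fintype.card Q : ℝ) ^ Fintype.card C ≤ S.card := by
    intro N C Q _ _ _ _ supp a b hco hab
    obtain ⟨S, hS, hSc⟩ := Pool.Agent.K4H98.Rel.exists_npgood hd hθ1 hlow N
    exact Pool.Agent.K4H98.Rel.lower_sys supp a b hab hco.1
      (fun E h1 h2 => hco.2 E (card_pos.1 h1) h2) hd S hS hSc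
  refine ⟨θd, h0, ?_, ⟨hup, hlowN⟩, hsys, hsyl, ?_, ?_⟩
  · by_contra hcon
    push Not at hcon
    obtain ⟨δ, hδ⟩ : ∃ δ, δ = (thr d + θd) / 2 := ⟨_, rfl⟩
    obtain ⟨N₁, hN₁⟩ := thr_good d hd δ (by linarith)
    obtain ⟨S, hS, h3⟩ := hlowN N₁
    refine hS (hN₁ _ le_rfl S ?_)
    have h6 : (0 : ℝ) < 2 ^ (N₁ ^ d) := by positivity
    nlinarith
  · intro m ar Q _ _ a b har hard hab
    refine ⟨fun δ L hδ hL => ?_, fun N => ?_⟩
    · obtain ⟨N₀, hN₀⟩ := hsys (m * d ^ d) (Fintype.card Q) δ L hδ hL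
      exact ⟨N₀, fun N hN S hS => hN₀ N hN _ Q (entries ar N) _ _ (tuples_system ar har hard N).1
        le_rfl (fun _ => hab) S hS⟩
    · exact hsyl N _ Q (entries ar N) _ _ (tuples_system ar har hard N).2 (fun _ => hab)
  · intro Q _ _ a b δ L hab hδ hL
    obtain ⟨N₀, hN₀⟩ := hsys 1 (Fintype.card Q) δ L hδ hL
    exact ⟨N₀, fun N hN S hS => hN₀ N hN _ Q (fun c : Edges d N => c.1) _ _ (edges_system hd N)
      le_rfl (fun _ => hab) S hS⟩

end Pool.Agent.Results.MP_90b327_co.RelationalForms
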