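import Mathlib
import Pool.Agent.K4H98.Theta.Lev

set_option autoImplicit false

/-!
# The theta function and the Sherali-Adams levels of the restricted density polynomial Hales-Jewett conjecture

The families of subsets of `[N]^d` which are not good are the independent sets of the graph on the subsets
of `[N]^d` in which `A` is joined to `A ∪ γ^d` (`γ` nonempty, `A ∩ γ^d = ∅`). We determine what the standard
relaxations of the problem of the largest independent set prove about it.

* The Lovász theta function of this graph is `((2^(d-1)-1)/(2^d-1) + o(1)) 2^(N^d)`. The same holds for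
  Szegedy's (larger) and for Schrijver's (smaller) variants and for levels 2 and 3 of the Sherali-Adams
  hierarchy strengthened by semidefiniteness: these methods prove Q1 exactly for the densities above
  `(2^(d-1)-1)/(2^d-1)`, which is positive for all `d ≥ 2`.
* Level `k` has value at least `l/(2k+l)`, `l = 1 - 2^(1-d)`, for all `N`: no fixed level of the hierarchy
  proves Q1, for any `d ≥ 2`.
* The same lower bounds hold for the larger graph in which all `A`, `B` with symmetric difference `γ^d` are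
  joined, a Cayley graph of the group of the subsets of `[N]^d`. So these methods do not even prove the
  translation invariant (abelian) form of Q1.
* The levels together are complete, uniformly in `N`: level `k ≥ 2^(m^d)` proves for all `N ≥ m` the density
  which is true for `[m]^d`, and Q1 holds in dimension `d` if and only if the values of the levels tend to
  zero as `k` tends to infinity (uniformly in large `N`).

Upper bound: the induction of the starting files `Pool.Agent.TH7.DH` (for products `h(A) h(B)`) is carried out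
for positive semidefinite kernels. Lower bound: a random `F₂`-linear function of `A` whose value at `γ^d` is the
OR of `d` random bits `⟨r_j, γ⟩` maps the graph to a graph of Frankl-Rödl type; the kernel is the average of
the products of the signs; it is at least `-(1 - 2^(1-d))` everywhere since the linear function is a
polynomial of degree `d` in the random bits, and triples of vertices are consistent since it is an average of
products of signs.
-/

namespace Pool.Agent.Results.MP_90b327_co.SheraliAdamsLevels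

open Finset

/-- `cube d γ` is `γ^d`, the set of all `d`-tuples with entries in `γ`. -/
def cube {N : ℕ} (d : ℕ) (γ : Finset (Fin N)) : Finset (Fin d → Fin N) :=
  Fintype.piFinset (fun _ : Fin d => γ)

/-- `B = A ∪ γ^d` for some nonempty `γ ⊆ [N]` with `A ∩ γ^d = ∅`. -/
def Joined {N d : ℕ} (A B : Finset (Fin d → Fin N)) : Prop :=
  ∃ γ : Finset (Fin N), γ.Nonempty ∧ Disjoint A (cube d γ) ∧ B = A ∪ cube d γ

/-- The symmetric difference of `A` and `B` is `γ^d` for some nonempty `γ ⊆ [N]`; this is the case if `A` and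
`B` are joined. -/
def SymJoined {N d : ℕ} (A B : Finset (Fin d → Fin N)) : Prop :=
  ∃ γ : Finset (Fin N), γ.Nonempty ∧ symmDiff A B = cube d γ

/-- A family `S` of subsets of `[N]^d` is good if there are `A ∈ S` and a nonempty `γ ⊆ [N]` with
`A ∩ γ^d = ∅` and `A ∪ γ^d ∈ S`. -/
def Good {N d : ℕ} (S : Finset (Finset (Fin d → Fin N))) : Prop :=
  ∃ A ∈ S, ∃ γ : Finset (Fin N), γ.Nonempty ∧ Disjoint A (cube d γ) ∧ A ∪ cube d γ ∈ S

/-- The point `(p, q)` is in the theta body of the empty graph on `X`: the symmetric matrix `q` has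
diagonal `p`, and the matrix `q` bordered by `p` and `1` is positive semidefinite. -/
structure Body {X : Type} [Fintype X] (p : X → ℝ) (q : X → X → ℝ) : Prop where
  symm : ∀ A B, q A B = q B A
  diag : ∀ A, q A A = p A
  psd : ∀ (t : ℝ) (c : X → ℝ), 0 ≤ t ^ 2 + 2 * t * ∑ A, c A * p A + ∑ A, ∑ B, c A * c B * q A B

/-- `μ` is a solution of level `k` of the Sherali-Adams relaxation, strengthened by semidefiniteness, for
families of subsets of `[N]^d` which are not good. For every set `T` of at most `k` vertices, `μ T` is a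
probability law on the subsets of `T` (`μ T W` is the probability that the random family meets `T` exactly in
`W`); it is zero at all `W` which contain `A` and `A ∪ γ^d`; the law for `T' ⊆ T` is the image of the law for
`T`; and the matrix of the probabilities `μ {A, B} {A, B}` of pairs, bordered by the probabilities
`μ {A} {A}` and `1`, is positive semidefinite. -/
structure Solution (k : ℕ) {N d : ℕ}
    (μ : Finset (Finset (Fin d → Fin N)) → Finset (Finset (Fin d → Fin N)) → ℝ) : Prop where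
  nonneg : ∀ T W, T.card ≤ k → W ⊆ T → 0 ≤ μ T W
  total : ∀ T, T.card ≤ k → ∑ W ∈ T.powerset, μ T W = 1
  indep : ∀ T W, T.card ≤ k → W ⊆ T → Good W → μ T W = 0
  marg : ∀ T T', T.card ≤ k → T' ⊆ T → ∀ W', W' ⊆ T' →
    μ T' W' = ∑ W ∈ T.powerset with W ∩ T' = W', μ T W
  psd : ∀ (t : ℝ) (c : Finset (Fin d → Fin N) → ℝ), 0 ≤ t ^ 2 + 2 * t * ∑ A, c A * μ {A} {A}
    + ∑ A, ∑ B, c A * c B * μ {A, B} {A, B}

lemma good_iff {N d : ℕ} (S : Finset (Finset (Fin d → Fin N))) :
    Good S ↔ ∃ A ∈ S, ∃ B ∈ S, Joined A B := by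
  constructor
  · rintro ⟨A, hA, γ, hγ, h1, h2⟩
    exact ⟨A, hA, _, h2, γ, hγ, h1, rfl⟩
  · rintro ⟨A, hA, B, hB, γ, hγ, h1, rfl⟩
    exact ⟨A, hA, γ, hγ, h1, hB⟩

lemma sol_iff {k N d : ℕ}
    {μ : Finset (Finset (Fin d → Fin N)) → Finset (Finset (Fin d → Fin N)) → ℝ} :
    Solution k μ ↔ Pool.Agent.K4H98.Theta.Relaxed k Pool.Agent.K4H98.Theta.Joined μ := by
  constructor
  · intro h
    exact ⟨h.nonneg, h.total, fun T S hT hS hg => h.indep T S hT hS ((good_iff S).2 hg), h.marg,
      h.psd⟩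
  · intro h
    exact ⟨h.nonneg, h.total, fun T S hT hS hg => h.indep T S hT hS ((good_iff S).1 hg), h.marg,
      h.psd⟩

lemma pair_zero {k N d : ℕ} (hk : 2 ≤ k)
    {μ : Finset (Finset (Fin d → Fin N)) → Finset (Finset (Fin d → Fin N)) → ℝ}
    (h : Pool.Agent.K4H98.Theta.Relaxed k Pool.Agent.K4H98.Theta.SJoined μ)
    {A B : Finset (Fin d → Fin N)} (hAB : SymJoined A B) : μ {A, B} {A, B} = 0 := by
  classical
  exact h.indep _ _ (card_le_two.trans hk) (Subset.refl _) ⟨A, mem_insert_self _ _, B,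
    mem_insert_of_mem (mem_singleton_self _), hAB⟩

/-- **Theorem.** Let `d ≥ 1`, `c = (2^(d-1)-1)/(2^d-1)` and `l = 1 - 2/2^d`.

(1) For every `ε > 0`, for all large `N`: if `(p, q)` is in `Body` and `q A B ≤ 0` for all joined `A`, `B`,
then the average of `p` is at most `c + ε` (in particular this holds for Lovász's theta function, where
`q A B = 0`).

(2) For every `N` there is a solution of level `3` with `μ {A} {A} = c` for all `A`, such that even
`μ {A, B} {A, B} = 0` for all `A`, `B` with symmetric difference `γ^d`, `γ` nonempty. For every `ε > 0`, for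
all large `N`, all solutions of all levels `k ≥ 2` have average at most `c + ε`.

(3) For every `k ≥ 2` and every `N` there is a solution of level `k` with `μ {A} {A} = l / (2 k + l)` for all
`A`, such that even `μ {A, B} {A, B} = 0` for all `A`, `B` with symmetric difference `γ^d`, `γ` nonempty.

(4) If every family of more than `δ 2^(m^d)` subsets of `[m]^d` is good, then the average of every solution of
level `k ≥ 2^(m^d)` is at most `δ` for all `N ≥ m`.

(5) Q1 holds in dimension `d` if and only if for every `δ > 0` there is a level `k` all solutions of which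
have average at most `δ` for all large `N`. -/
theorem result : ∀ d : ℕ, 1 ≤ d →
    (∀ ε : ℝ, 0 < ε → ∃ N₀ : ℕ, ∀ N : ℕ, N₀ ≤ N → ∀ (p : Finset (Fin d → Fin N) → ℝ)
      (q : Finset (Fin d → Fin N) → Finset (Fin d → Fin N) → ℝ), Body p q →
        (∀ A B, Joined A B → q A B ≤ 0) →
          ∑ A, p A ≤ (((2 : ℝ) ^ (d - 1) - 1) / (2 ^ d - 1) + ε) * 2 ^ (N ^ d)) ∧
    ((∀ N : ℕ, ∃ μ : Finset (Finset (Fin d → Fin N)) → Finset (Finset (Fin d → Fin N)) → ℝ,
      Solution 3 μ ∧ (∀ A B, SymJoined A B → μ {A, B} {A, B} = 0) ∧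
        ∀ A, μ {A} {A} = ((2 : ℝ) ^ (d - 1) - 1) / (2 ^ d - 1)) ∧
    (∀ ε : ℝ, 0 < ε → ∃ N₀ : ℕ, ∀ N : ℕ, N₀ ≤ N → ∀ k : ℕ, 2 ≤ k →
      ∀ μ : Finset (Finset (Fin d → Fin N)) → Finset (Finset (Fin d → Fin N)) → ℝ,
        Solution k μ →
          ∑ A, μ {A} {A} ≤ (((2 : ℝ) ^ (d - 1) - 1) / (2 ^ d - 1) + ε) * 2 ^ (N ^ d))) ∧
    (∀ k : ℕ, 2 ≤ k → ∀ N : ℕ,
      ∃ μ : Finset (Finset (Fin d → Fin N)) → Finset (Finset (Fin d → Fin N)) → ℝ,
        Solution k μ ∧ (∀ A B, SymJoined A B → μ {A, B} {A, B} = 0) ∧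
          ∀ A, μ {A} {A} = (1 - 2 / 2 ^ d) / (2 * k + (1 - 2 / 2 ^ d))) ∧
    (∀ (m : ℕ) (δ : ℝ), (∀ S : Finset (Finset (Fin d → Fin m)), δ * 2 ^ (m ^ d) < S.card → Good S) →
      ∀ N k : ℕ, m ≤ N → 2 ^ (m ^ d) ≤ k →
        ∀ μ : Finset (Finset (Fin d → Fin N)) → Finset (Finset (Fin d → Fin N)) → ℝ,
          Solution k μ → ∑ A, μ {A} {A} ≤ δ * 2 ^ (N ^ d)) ∧
    ((∀ δ : ℝ, 0 < δ → δ < 1 → ∃ N : ℕ, 1 ≤ N ∧
      ∀ S : Finset (Finset (Fin d → Fin N)), δ * 2 ^ (N ^ d) < S.card → Good S) ↔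
      ∀ δ : ℝ, 0 < δ → ∃ k N₀ : ℕ, ∀ N : ℕ, N₀ ≤ N →
        ∀ μ : Finset (Finset (Fin d → Fin N)) → Finset (Finset (Fin d → Fin N)) → ℝ,
          Solution k μ → ∑ A, μ {A} {A} ≤ δ * 2 ^ (N ^ d)) := by
  intro d hd
  have hpl : ∀ (m : ℕ) (δ : ℝ),
      (∀ S : Finset (Finset (Fin d → Fin m)), δ * 2 ^ (m ^ d) < S.card → Good S) →
      ∀ N k : ℕ, m ≤ N → 2 ^ (m ^ d) ≤ k →
        ∀ μ : Finset (Finset (Fin d → Fin N)) → Finset (Finset (Fin d → Fin N)) → ℝ,
          Solution k μ → ∑ A, μ {A} {A} ≤ δ * 2 ^ (N ^ d) :=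
    fun m δ hδ N k hm hk μ hμ => Pool.Agent.K4H98.Theta.planted hm hk δ
      (fun S hS => (good_iff S).1 (hδ S hS)) μ (sol_iff.1 hμ)
  have hup : ∀ ε : ℝ, 0 < ε → ∃ N₀ : ℕ, ∀ N : ℕ, N₀ ≤ N → ∀ (p : Finset (Fin d → Fin N) → ℝ)
      (q : Finset (Fin d → Fin N) → Finset (Fin d → Fin N) → ℝ), Body p q →
        (∀ A B, Joined A B → q A B ≤ 0) →
          ∑ A, p A ≤ (((2 : ℝ) ^ (d - 1) - 1) / (2 ^ d - 1) + ε) * 2 ^ (N ^ d) := by
    intro ε hε
    obtain ⟨N₀, h⟩ := Pool.Agent.K4H98.Theta.upper d hd ε hε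
    exact ⟨N₀, fun N hN p q hpq hq => h N hN p q ⟨hpq.symm, hpq.diag, hpq.psd⟩
      fun A γ hγ hA => hq _ _ ⟨γ, hγ, hA, rfl⟩⟩
  refine ⟨hup, ⟨?_, ?_⟩, ?_, hpl, ?_, ?_⟩
  · intro N
    obtain ⟨μ, h1, h2⟩ := Pool.Agent.K4H98.Theta.level_three d hd N
    exact ⟨μ, sol_iff.2 (h1.mono fun _ _ h => h.sjoined), fun A B h => pair_zero (by norm_num) h1 h,
      h2⟩
  · intro ε hε
    obtain ⟨N₀, h⟩ := Pool.Agent.K4H98.Theta.upper d hd ε hε
    refine ⟨N₀, fun N hN k hk μ hμ => ?_⟩
    obtain ⟨h1, h2⟩ := (sol_iff.1 hμ).body hk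
    exact h N hN _ _ h1 h2
  · intro k hk N
    obtain ⟨μ, h1, h2⟩ := Pool.Agent.K4H98.Theta.level_all d hd k (by omega) N
    exact ⟨μ, sol_iff.2 (h1.mono fun _ _ h => h.sjoined), fun A B h => pair_zero hk h1 h, h2⟩
  · intro hQ δ hδ
    obtain ⟨m, _, hm⟩ := hQ (min δ (1 / 2)) (lt_min hδ (by norm_num))
      (lt_of_le_of_lt (min_le_right _ _) (by norm_num))
    refine ⟨2 ^ (m ^ d), m, fun N hN μ hμ => ?_⟩
    have h1 := hpl m (min δ (1 / 2)) hm N _ hN le_rfl μ hμ
    exact h1.trans (mul_le_mul_of_nonneg_right (min_le_left _ _) (by positivity))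
  · intro h δ hδ _
    obtain ⟨k, N₀, hN⟩ := h δ hδ
    refine ⟨max N₀ 1, le_max_right _ _, fun S hS => ?_⟩
    by_contra hg
    have h1 := hN (max N₀ 1) (le_max_left _ _) _ (sol_iff.2
      (Pool.Agent.K4H98.Theta.relaxed_of_family k S fun h2 => hg ((good_iff S).2 h2)))
    have h2 : ∑ A : Finset (Fin d → Fin (max N₀ 1)),
        (if ({A} : Finset (Finset (Fin d → Fin (max N₀ 1)))) = S ∩ {A} then (1 : ℝ) else 0)
        = S.card := by
      have h3 : ∀ A : Finset (Fin d → Fin (max N₀ 1)),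
          ({A} : Finset (Finset (Fin d → Fin (max N₀ 1)))) = S ∩ {A} ↔ A ∈ S := by
        intro A
        rw [eq_comm, inter_eq_right, singleton_subset_iff]
      simp only [h3]
      simp
    rw [h2] at h1
    linarith

end Pool.Agent.Results.MP_90b327_co.SheraliAdamsLevels
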