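import Mathlib
import Pool.Agent.K4H98.Hull.Sum
import Pool.Agent.Results.MP_90b327_co.VectorThreshold
import Pool.Agent.Results.MP_90b327_co.FourCycleThreshold

set_option autoImplicit false

/-!
# Sumsets, weights in the hull of the structured families, randomised descriptions

The critical density `θ_d` of the restricted density polynomial Hales-Jewett problem (helper484's
`CriticalDensity`) is also the critical density relative to weights which are Lipschitz functions of
combinations of any number of structured families with bounded sum of coefficients, relative to the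
sums `A ∆ B` of the members of two dense families, and relative to the families which are decided by
a random structured family with bounded error. The new step is the approximation in `L¹` of such
weights by functions of boundedly many structured families (sampling).
-/

namespace Pool.Agent.Results.MP_90b327_co.SumsetsAndHulls

open Finset

/-- `cube d γ` is `γ^d`, the set of all `d`-tuples with entries in `γ`. -/
def cube {N : ℕ} (d : ℕ) (γ : Finset (Fin N)) : Finset (Fin d → Fin N) :=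
  Fintype.piFinset (fun _ : Fin d => γ)

/-- A family `S` of subsets of `[N]^d` is good if there are `A ∈ S` and a nonempty `γ ⊆ [N]` with
`A ∩ γ^d = ∅` and `A ∪ γ^d ∈ S`. -/
def Good {N d : ℕ} (S : Finset (Finset (Fin d → Fin N))) : Prop :=
  ∃ A ∈ S, ∃ γ : Finset (Fin N), γ.Nonempty ∧ Disjoint A (cube d γ) ∧ A ∪ cube d γ ∈ S

/-- The polynomial of degree at most `D` with coefficients `c` and values in the abelian group `G`:
`A ↦ ∑ c T`, the sum over all subsets `T ⊆ A` with at most `D` elements. -/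
def poly {E G : Type} [AddCommGroup G] (D : ℕ) (c : Finset E → G) (A : Finset E) : G :=
  ∑ T ∈ A.powerset.filter (fun T => T.card ≤ D), c T

/-- The difference of `h` in direction `e`: `A ↦ h (A ∪ {e}) - h (A \ {e})`. -/
def diff {E : Type} [DecidableEq E] (e : E) (h : Finset E → ℝ) (A : Finset E) : ℝ :=
  h (insert e A) - h (A.erase e)

/-- All differences of order `k` of `h` have constant sign: for all `e₁, …, e_k` the function
`diff e₁ (… (diff e_k h))` is nowhere negative or nowhere positive (which of the two may depend on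
`e₁, …, e_k`). -/
def ConstSign {E : Type} [DecidableEq E] : ℕ → (Finset E → ℝ) → Prop
  | 0, h => (∀ A, 0 ≤ h A) ∨ (∀ A, h A ≤ 0)
  | k + 1, h => ∀ e, ConstSign k (diff e h)

/-- `F` is a structured family of subsets of `[N]^d`, of complexity `(D, k, r, G)`: it is
`{A : R (0 < h₁ A, …, 0 < h_r A, q A)}` for some condition `R`, where each `hᵢ` is a real function of
`A` for which all differences of some order `j`, `1 ≤ j ≤ k`, have constant sign, and `q` is a
polynomial of degree at most `D` with values in `G` whose coefficient `c T` is zero unless any two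
tuples in `T` have a common entry. -/
def Structured (D k r : ℕ) (G : Type) [AddCommGroup G] {d N : ℕ}
    (F : Finset (Finset (Fin d → Fin N))) : Prop :=
  ∃ (h : Fin r → Finset (Fin d → Fin N) → ℝ) (c : Finset (Fin d → Fin N) → G)
    (R : (Fin r → Prop) → G → Prop),
    (∀ i, ∃ j, 1 ≤ j ∧ j ≤ k ∧ ConstSign j (h i)) ∧
    (∀ T, c T ≠ 0 → ∀ x ∈ T, ∀ y ∈ T, ∃ i j, x i = y j) ∧
    ∀ A, A ∈ F ↔ R (fun i => 0 < h i A) (poly D c A)

/-- `f` is a combination `∑ bᵢ 1_{Fᵢ}` of indicator functions of structured families with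
`∑ |bᵢ| ≤ M`. There is no bound on the number of terms. -/
def Hull (D k r : ℕ) (G : Type) [AddCommGroup G] (M : ℝ) {d N : ℕ}
    (f : Finset (Fin d → Fin N) → ℝ) : Prop :=
  ∃ (n : ℕ) (F : Fin n → Finset (Finset (Fin d → Fin N))) (b : Fin n → ℝ),
    (∀ i, Structured D k r G (F i)) ∧ ∑ i, |b i| ≤ M ∧
    ∀ A, f A = ∑ i, if A ∈ F i then b i else 0

/-- `w` is a weight: `w A = φ (f₁ A, …, f_s A)` with `f₁, …, f_s` in the hull of the structured
families and `φ` Lipschitz with constant `K` and `|φ 0| ≤ K`. -/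
def Weight (D k r s : ℕ) (G : Type) [AddCommGroup G] (M K : ℝ) {d N : ℕ}
    (w : Finset (Fin d → Fin N) → ℝ) : Prop :=
  ∃ (f : Fin s → Finset (Fin d → Fin N) → ℝ) (φ : (Fin s → ℝ) → ℝ),
    (∀ i, Hull D k r G M (f i)) ∧ (∀ x y, |φ x - φ y| ≤ K * ∑ i, |x i - y i|) ∧ |φ 0| ≤ K ∧
    ∀ A, w A = φ (fun i => f i A)

/-- The number of pairs `(A, B)`, `A ∈ T`, `B ∈ T'`, with `A ∆ B ∈ S`. -/
def pairs {E : Type} [DecidableEq E] (T T' S : Finset (Finset E)) : ℕ :=
  ((T ×ˢ T').filter fun p => symmDiff p.1 p.2 ∈ S).card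

/-- `F` is decided with bounded error by a random structured family: there are structured families
`Φᵢ` (any number of them) with probabilities `pᵢ` such that the probability of `A ∈ Φᵢ` is at least
`2/3` for `A ∈ F` and at most `1/3` for `A ∉ F`. -/
def Randomised (D k r : ℕ) (G : Type) [AddCommGroup G] {d N : ℕ}
    (F : Finset (Finset (Fin d → Fin N))) : Prop :=
  ∃ (n : ℕ) (Φ : Fin n → Finset (Finset (Fin d → Fin N))) (p : Fin n → ℝ),
    (∀ i, Structured D k r G (Φ i)) ∧ (∀ i, 0 ≤ p i) ∧ ∑ i, p i = 1 ∧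
    ∀ A, (A ∈ F → 2 / 3 ≤ ∑ i, if A ∈ Φ i then p i else 0) ∧
      (A ∉ F → (∑ i, if A ∈ Φ i then p i else 0) ≤ 1 / 3)

/-- The density above which Q1 is proved in `VectorThreshold` (`d = 1, 2`) and in
`FourCycleThreshold` (`d ≥ 3`): `0` for `d = 1`, `0.3223` for `d = 2`, `2^(d-2)/(2^(d-1)+1)` for
`d ≥ 3`. -/
noncomputable def thr (d : ℕ) : ℝ :=
  if d = 1 then 0 else if d = 2 then 3223 / 10000 else (2 : ℝ) ^ (d - 2) / (2 ^ (d - 1) + 1)

lemma constSign_iff {E : Type} [DecidableEq E] (k : ℕ) : ∀ h : Finset E → ℝ, ConstSign k h ↔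
    Pool.Agent.TH484.PH.Reg k h := by
  induction k with
  | zero => exact fun h => Iff.rfl
  | succ k ih => exact fun h => forall_congr' fun e => ih _

lemma structured_iff (D k r : ℕ) (G : Type) [AddCommGroup G] {d N : ℕ}
    (F : Finset (Finset (Fin d → Fin N))) : Structured D k r G F ↔
      Pool.Agent.TH484.PH.StructuredF D k r G F := by
  constructor
  · rintro ⟨h, c, R, h1, h2, h3⟩
    refine ⟨h, c, R, fun i => ?_, h2, h3⟩
    obtain ⟨j, h4, h5, h6⟩ := h1 i
    exact ⟨j, h4, h5, (constSign_iff j _).1 h6⟩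
  · rintro ⟨h, c, R, h1, h2, h3⟩
    refine ⟨h, c, R, fun i => ?_, h2, h3⟩
    obtain ⟨j, h4, h5, h6⟩ := h1 i
    exact ⟨j, h4, h5, (constSign_iff j _).2 h6⟩

lemma hull_iff (D k r : ℕ) (G : Type) [AddCommGroup G] (M : ℝ) {d N : ℕ}
    (f : Finset (Fin d → Fin N) → ℝ) : Hull D k r G M f ↔
      Pool.Agent.K4H98.Hull.InHull (Pool.Agent.TH484.PH.StructuredF D k r G) M f := by
  constructor
  · rintro ⟨n, F, b, h1, h2, h3⟩
    exact ⟨n, F, b, fun i => (structured_iff D k r G _).1 (h1 i), h2, h3⟩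
  · rintro ⟨n, F, b, h1, h2, h3⟩
    exact ⟨n, F, b, fun i => (structured_iff D k r G _).2 (h1 i), h2, h3⟩

lemma thr_good (d : ℕ) (hd : 1 ≤ d) (δ : ℝ) (hδ : thr d < δ) : ∃ N₀ : ℕ, ∀ N : ℕ, N₀ ≤ N →
    ∀ S : Finset (Finset (Fin d → Fin N)), δ * (2 : ℝ) ^ (N ^ d) < S.card → Good S := by
  unfold thr at hδ
  by_cases h1 : d = 1
  · rw [if_pos h1] at hδ
    subst h1
    refine Pool.Agent.Results.MP_90b327_co.VectorThreshold.result 1 le_rfl δ ?_
    unfold Pool.Agent.Results.MP_90b327_co.VectorThreshold.threshold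
    norm_num
    exact hδ
  · rw [if_neg h1] at hδ
    by_cases h2 : d = 2
    · rw [if_pos h2] at hδ
      subst h2
      refine Pool.Agent.Results.MP_90b327_co.VectorThreshold.result 2 (by norm_num) δ ?_
      unfold Pool.Agent.Results.MP_90b327_co.VectorThreshold.threshold
      rw [if_pos rfl]
      exact hδ
    · rw [if_neg h2] at hδ
      exact Pool.Agent.Results.MP_90b327_co.FourCycleThreshold.result d (by omega) δ hδ

lemma clamp_lip (a b : ℝ) : |max (min a 1) 0 - max (min b 1) 0| ≤ |a - b| := by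
  refine (abs_max_sub_max_le_abs _ _ _).trans ?_
  have := abs_min_sub_min_le_max a 1 b 1
  simpa using this

/-- the indicator function of a randomised family is a weight -/
lemma weight_randomised {D k r : ℕ} {G : Type} [AddCommGroup G] {d N : ℕ}
    {F : Finset (Finset (Fin d → Fin N))} (hF : Randomised D k r G F) :
    Weight D k r 1 G 1 3 (fun A => if A ∈ F then (1 : ℝ) else 0) := by
  obtain ⟨n, Φ, p, h1, h2, h3, h4⟩ := hF
  refine ⟨fun _ A => ∑ i, if A ∈ Φ i then p i else 0, fun x => max (min (3 * x 0 - 1) 1) 0,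
    fun _ => ⟨n, Φ, p, h1, ?_, fun A => rfl⟩, fun x y => ?_, ?_, fun A => ?_⟩
  · rw [← h3]
    exact le_of_eq (sum_congr rfl fun i _ => abs_of_nonneg (h2 i))
  · rw [Fin.sum_univ_one]
    have h5 := clamp_lip (3 * x 0 - 1) (3 * y 0 - 1)
    refine h5.trans (le_of_eq ?_)
    rw [show (3 * x 0 - 1) - (3 * y 0 - 1) = 3 * (x 0 - y 0) by ring, abs_mul]
    norm_num
  · simp
  · obtain ⟨h5, h6⟩ := h4 A
    by_cases hA : A ∈ F
    · have := h5 hA
      simp only [if_pos hA]
      rw [min_eq_right (by linarith), max_eq_left zero_le_one]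
    · have := h6 hA
      simp only [if_neg hA]
      rw [min_eq_left (by linarith), max_eq_right (by linarith)]

/-- the normalised number of representations as a sum is a weight -/
lemma weight_conv {d N : ℕ} (hd : 1 ≤ d) (T T' : Finset (Finset (Fin d → Fin N))) :
    Weight 1 0 0 1 (ZMod 2) 3 1 (Pool.Agent.K4H98.Hull.conv T T') := by
  refine ⟨fun _ => Pool.Agent.K4H98.Hull.conv T T', fun x => x 0, fun _ => ?_, fun x y => ?_, ?_,
    fun A => rfl⟩
  · rw [hull_iff]
    have := Pool.Agent.K4H98.Hull.hull_of_spec hd (Pool.Agent.K4H98.Hull.conv_spec T T')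
    rwa [mul_one] at this
  · rw [Fin.sum_univ_one, one_mul]
  · simp

lemma sum_conv' {d N : ℕ} (T T' S : Finset (Finset (Fin d → Fin N))) :
    ∑ X ∈ S, Pool.Agent.K4H98.Hull.conv T T' X * 2 ^ (N ^ d) = pairs T T' S := by
  rw [← sum_mul, Pool.Agent.K4H98.Hull.sum_conv]
  have : Fintype.card (Fin d → Fin N) = N ^ d := by simp
  rw [this]
  unfold pairs
  field_simp

lemma pairs_univ {d N : ℕ} (T T' : Finset (Finset (Fin d → Fin N))) :
    (pairs T T' univ : ℝ) = T.card * T'.card := by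
  unfold pairs
  simp

/-- **Theorem.** For every `d ≥ 1` there is a number `θ_d` with `0 ≤ θ_d ≤ thr d`, such that:

(1) For all `D, k, r, s, G, M, K`, all `θ > θ_d` and `δ > 0` and all large `N`: if `w ≥ 0` is a
weight with `∑ w ≥ δ 2^(N^d)`, then every family `S` with `∑_{A ∈ S} w A ≥ θ ∑ w` is good.

(2) For all `D, k, r, s, G, M, K`, all `ε > 0` and all large `N` there is a family `S` which is not
good with `|∑_{A ∈ S} w A - θ_d ∑ w| ≤ ε 2^(N^d)` for all weights `w`.

(3) For all `θ > θ_d` and `δ > 0` and all large `N`: if `T` and `T'` are families with at least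
`δ 2^(N^d)` members, then every family `S` which contains `A ∆ B` for at least `θ |T| |T'|` of the
pairs `(A, B)`, `A ∈ T`, `B ∈ T'`, is good.

(4) For all `ε > 0` and all large `N` there is a family `S` which is not good, such that for all
families `T` and `T'` the number of pairs with `A ∆ B ∈ S` differs from `θ_d |T| |T'|` by at most
`ε 4^(N^d)`.

(5) The relative form of the statement for families decided with bounded error by random structured
families: for all `D, k, r, G`, all `θ > θ_d` and `δ > 0` and all large `N`, if `F` is such a family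
with at least `δ 2^(N^d)` members, then every family `S` which contains at least `θ |F|` members of
`F` is good. -/
theorem result (d : ℕ) (hd : 1 ≤ d) : ∃ θd : ℝ, 0 ≤ θd ∧ θd ≤ thr d ∧
    (∀ (D k r s : ℕ) (G : Type) [AddCommGroup G] [Finite G] (M K θ δ : ℝ), θd < θ → 0 < δ →
      ∃ N₀ : ℕ, ∀ N : ℕ, N₀ ≤ N → ∀ (w : Finset (Fin d → Fin N) → ℝ)
        (S : Finset (Finset (Fin d → Fin N))), Weight D k r s G M K w → (∀ A, 0 ≤ w A) →
          δ * (2 : ℝ) ^ (N ^ d) ≤ ∑ A, w A → θ * ∑ A, w A ≤ ∑ A ∈ S, w A → Good S) ∧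
    (∀ (D k r s : ℕ) (G : Type) [AddCommGroup G] [Finite G] (M K ε : ℝ), 0 < ε →
      ∃ N₀ : ℕ, ∀ N : ℕ, N₀ ≤ N → ∃ S : Finset (Finset (Fin d → Fin N)), ¬ Good S ∧
        ∀ w : Finset (Fin d → Fin N) → ℝ, Weight D k r s G M K w →
          |∑ A ∈ S, w A - θd * ∑ A, w A| ≤ ε * (2 : ℝ) ^ (N ^ d)) ∧
    (∀ θ δ : ℝ, θd < θ → 0 < δ → ∃ N₀ : ℕ, ∀ N : ℕ, N₀ ≤ N →
      ∀ T T' S : Finset (Finset (Fin d → Fin N)), δ * (2 : ℝ) ^ (N ^ d) ≤ T.card →
        δ * (2 : ℝ) ^ (N ^ d) ≤ T'.card → θ * (T.card * T'.card) ≤ pairs T T' S → Good S) ∧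
    (∀ ε : ℝ, 0 < ε → ∃ N₀ : ℕ, ∀ N : ℕ, N₀ ≤ N →
      ∃ S : Finset (Finset (Fin d → Fin N)), ¬ Good S ∧
        ∀ T T' : Finset (Finset (Fin d → Fin N)),
          |(pairs T T' S : ℝ) - θd * (T.card * T'.card)| ≤ ε * (4 : ℝ) ^ (N ^ d)) ∧
    (∀ (D k r : ℕ) (G : Type) [AddCommGroup G] [Finite G] (θ δ : ℝ), θd < θ → 0 < δ →
      ∃ N₀ : ℕ, ∀ N : ℕ, N₀ ≤ N → ∀ F S : Finset (Finset (Fin d → Fin N)),
        Randomised D k r G F → δ * (2 : ℝ) ^ (N ^ d) ≤ F.card → θ * F.card ≤ (F ∩ S).card →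
          Good S) := by
  classical
  obtain ⟨θd, h0, -, h2⟩ := Pool.Agent.K4H98.Hull.main d hd
  have hA1 : ∀ (D k r s : ℕ) (G : Type) [AddCommGroup G] [Finite G] (M K θ δ : ℝ), θd < θ →
      0 < δ → ∃ N₀ : ℕ, ∀ N : ℕ, N₀ ≤ N → ∀ (w : Finset (Fin d → Fin N) → ℝ)
        (S : Finset (Finset (Fin d → Fin N))), Weight D k r s G M K w → (∀ A, 0 ≤ w A) →
          δ * (2 : ℝ) ^ (N ^ d) ≤ ∑ A, w A → θ * ∑ A, w A ≤ ∑ A ∈ S, w A → Good S := by
    intro D k r s G _ _ M K θ δ hθ hδ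
    obtain ⟨N₀, hN₀⟩ := (h2 D k r s G M K).1 θ δ hθ hδ
    refine ⟨N₀, fun N hN w S hw hw0 h3 h4 => ?_⟩
    obtain ⟨f, φ, hf, hφ, hφ0, hwφ⟩ := hw
    have hw' : ∀ A, w A = max (φ fun i => f i A) 0 := fun A => by
      rw [max_eq_left]
      · exact hwφ A
      · rw [← hwφ]
        exact hw0 A
    refine hN₀ N hN f (fun x => max (φ x) 0) S (fun i => (hull_iff D k r G M _).1 (hf i))
      (fun x y => (abs_max_sub_max_le_abs _ _ _).trans (hφ x y)) ?_ (fun x => le_max_right _ _)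
      ?_ ?_
    · rw [abs_of_nonneg (le_max_right _ _)]
      exact max_le ((le_abs_self _).trans hφ0) ((abs_nonneg _).trans hφ0)
    · rw [← sum_congr rfl fun A _ => hw' A]
      exact h3
    · rw [← sum_congr rfl fun A _ => hw' A, ← sum_congr rfl fun A _ => hw' A]
      exact h4
  have hA2 : ∀ (D k r s : ℕ) (G : Type) [AddCommGroup G] [Finite G] (M K ε : ℝ), 0 < ε →
      ∃ N₀ : ℕ, ∀ N : ℕ, N₀ ≤ N → ∃ S : Finset (Finset (Fin d → Fin N)), ¬ Good S ∧
        ∀ w : Finset (Fin d → Fin N) → ℝ, Weight D k r s G M K w →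
          |∑ A ∈ S, w A - θd * ∑ A, w A| ≤ ε * (2 : ℝ) ^ (N ^ d) := by
    intro D k r s G _ _ M K ε hε
    obtain ⟨N₀, hN₀⟩ := (h2 D k r s G M K).2 ε hε
    refine ⟨N₀, fun N hN => ?_⟩
    obtain ⟨S, hS, h3⟩ := hN₀ N hN
    refine ⟨S, hS, fun w hw => ?_⟩
    obtain ⟨f, φ, hf, hφ, hφ0, hwφ⟩ := hw
    have := h3 f φ (fun i => (hull_iff D k r G M _).1 (hf i)) hφ hφ0
    rw [sum_congr rfl fun A _ => hwφ A, sum_congr rfl fun A _ => hwφ A]
    exact this
  have hL : ∀ N : ℕ, (0 : ℝ) < 2 ^ (N ^ d) := fun N => by positivity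
  -- the weight `1`
  have hone : ∀ N : ℕ, Weight 0 0 0 0 (ZMod 2) 0 1 (fun _ : Finset (Fin d → Fin N) => (1 : ℝ)) :=
    fun N => ⟨fun i => i.elim0, fun _ => 1, fun i => i.elim0, fun x y => by simp, by simp,
      fun A => rfl⟩
  have hcardL : ∀ N : ℕ, ((Fintype.card (Finset (Fin d → Fin N)) : ℕ) : ℝ) = 2 ^ (N ^ d) :=
    fun N => Pool.Agent.K4H98.Hull.card_pw d N
  refine ⟨θd, h0, ?_, hA1, hA2, ?_, ?_, ?_⟩
  · by_contra hcon
    push Not at hcon
    obtain ⟨δ, hδ⟩ : ∃ δ, δ = (thr d + θd) / 2 := ⟨_, rfl⟩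
    obtain ⟨N₁, hN₁⟩ := thr_good d hd δ (by linarith)
    obtain ⟨N₂, hN₂⟩ := hA2 0 0 0 0 (ZMod 2) 0 1 ((θd - thr d) / 4) (by linarith)
    obtain ⟨S, hS, h3⟩ := hN₂ (max N₁ N₂) (le_max_right _ _)
    refine hS (hN₁ _ (le_max_left _ _) S ?_)
    have h4 := h3 _ (hone _)
    simp only [sum_const, card_univ, nsmul_eq_mul, mul_one, hcardL] at h4
    have h5 := (abs_le.1 h4).1
    have h6 := hL (max N₁ N₂)
    nlinarith
  · intro θ δ hθ hδ
    obtain ⟨N₀, hN₀⟩ := hA1 1 0 0 1 (ZMod 2) 3 1 θ (δ * δ) hθ (mul_pos hδ hδ)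
    refine ⟨N₀, fun N hN T T' S hT hT' hS => ?_⟩
    refine hN₀ N hN (Pool.Agent.K4H98.Hull.conv T T') S (weight_conv hd T T')
      (Pool.Agent.K4H98.Hull.conv_nonneg T T') ?_ ?_
    · have h3 := sum_conv' T T' univ
      rw [pairs_univ, ← sum_mul] at h3
      have h4 : (δ * 2 ^ (N ^ d)) * (δ * 2 ^ (N ^ d)) ≤ (T.card : ℝ) * T'.card :=
        mul_le_mul hT hT' (mul_nonneg hδ.le (hL N).le) (by positivity)
      rw [← h3] at h4
      refine le_of_mul_le_mul_right (le_trans (le_of_eq ?_) h4) (hL N)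
      ring
    · have h3 := sum_conv' T T' univ
      have h4 := sum_conv' T T' S
      rw [pairs_univ, ← sum_mul] at h3
      rw [← sum_mul] at h4
      rw [← h3, ← h4, ← mul_assoc] at hS
      exact le_of_mul_le_mul_right hS (hL N)
  · intro ε hε
    obtain ⟨N₀, hN₀⟩ := hA2 1 0 0 1 (ZMod 2) 3 1 ε hε
    refine ⟨N₀, fun N hN => ?_⟩
    obtain ⟨S, hS, h3⟩ := hN₀ N hN
    refine ⟨S, hS, fun T T' => ?_⟩
    have h4 := h3 _ (weight_conv hd T T')
    have h5 := sum_conv' T T' univ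
    have h6 := sum_conv' T T' S
    rw [pairs_univ, ← sum_mul] at h5
    rw [← sum_mul] at h6
    rw [← h5, ← h6, ← mul_assoc, ← sub_mul, abs_mul, abs_of_pos (hL N)]
    have h7 : (4 : ℝ) ^ (N ^ d) = 2 ^ (N ^ d) * 2 ^ (N ^ d) := by
      rw [← mul_pow]
      norm_num
    rw [h7, ← mul_assoc]
    exact mul_le_mul_of_nonneg_right h4 (hL N).le
  · intro D k r G _ _ θ δ hθ hδ
    obtain ⟨N₀, hN₀⟩ := hA1 D k r 1 G 1 3 θ δ hθ hδ
    refine ⟨N₀, fun N hN F S hF hFc hFS => ?_⟩
    have h3 : ∀ U : Finset (Finset (Fin d → Fin N)),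
        ∑ A ∈ U, (if A ∈ F then (1 : ℝ) else 0) = ((F ∩ U).card : ℝ) := by
      intro U
      rw [sum_ite_mem, sum_const, nsmul_eq_mul, mul_one, inter_comm]
    have h4 := h3 univ
    rw [inter_univ] at h4
    refine hN₀ N hN _ S (weight_randomised hF) (fun A => ?_) ?_ ?_
    · split_ifs
      · exact zero_le_one
      · exact le_rfl
    · rw [h4]
      exact hFc
    · rw [h4, h3 S]
      exact hFS

end Pool.Agent.Results.MP_90b327_co.SumsetsAndHulls
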