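import Mathlib
import Pool.Agent.K4H98.Which.Fam
import Pool.Agent.K4H98.Which.Scheme
import Pool.Agent.K4H98.Which.Size

set_option autoImplicit false

/-!
# Which sets `γ` are needed in the restricted density polynomial Hales-Jewett conjecture?

The conjecture asks for `A` and `A ∪ γ^d` in every dense family, `γ` being an arbitrary nonempty set. We study
which restrictions on `γ` are possible.

1. VC dimension. If the allowed sets `γ` together with `∅` form a set system of VC dimension at most `d`, there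
   is a family of exactly half of all subsets of `[N]^d`, for every `N ≥ 1`, which contains exactly one of `A`
   and `A ∆ γ^d` for all `A` and all allowed `γ`. Such classes are, for instance, the sets with at most `d`
   elements, the unions of at most `d/2` intervals, or all sets cut out of points in `ℝ^(d-1)` by half spaces
   (if `∅` is counted). This is sharp: the subsets of a set of size `d + 1` force a pair `A`, `A ∆ γ^d` in every
   family of density above `(2^d-1)/(2^(d+1)-1) < 1/2`, and in the restricted form (`A ∩ γ^d = ∅`) the sets `γ`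
   with at most `d + 1` elements, all within `d + 1` consecutive elements, suffice above this density.
2. Intervals. For `d ≥ 2` and every `k`, families of density `1/(k+1)` avoid all `γ` which are unions of at most
   `k` intervals; for `d = 1` intervals suffice at every positive density.
3. Sizes. If the conjecture holds in dimension `d` with sizes `|γ|` restricted to a set `L`, then
   `(ℓ, ℓ², ..., ℓ^d)`, `ℓ ∈ L`, are recurrent: they are found as differences in all dense sets of points of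
   large boxes in `ℤ^d`. For `d = 1` this is an equivalence, and then `γ` may even be taken to be an interval.

Proof of 1: if there is no `F₂`-linear weight of the cells for which all `γ^d` have weight one, there is an odd
number of allowed sets which, with `∅`, has all its moments of order at most `d` even; a minimal set with an odd
moment has more than `d` elements and is shattered.
Proof of 2: the number of intervals of `γ` is the number of the cells `(i, ..., i)` minus the number of the cells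
`(i, i+1, ..., i+1)` of `γ^d`. Proof of 3: the numbers of the elements of `A` with `x_j = ... = x_d`.
-/

namespace Pool.Agent.Results.MP_90b327_co.WhichGamma

open Finset

/-- `cube d γ` is `γ^d`, the set of all `d`-tuples with entries in `γ`. -/
def cube {N : ℕ} (d : ℕ) (γ : Finset (Fin N)) : Finset (Fin d → Fin N) :=
  Fintype.piFinset (fun _ : Fin d => γ)

/-- The number of the maximal intervals (sets of consecutive elements) of `γ`: the number of `i ∈ γ` with
`i + 1 ∉ γ`. -/
def intervals {N : ℕ} (γ : Finset (Fin N)) : ℕ :=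
  (γ.filter fun i : Fin N => ∀ j ∈ γ, (j : ℕ) ≠ (i : ℕ) + 1).card

/-- `γ` is an interval of `[N]`. -/
def IsInterval {N : ℕ} (γ : Finset (Fin N)) : Prop :=
  ∀ i ∈ γ, ∀ j ∈ γ, ∀ k : Fin N, i ≤ k → k ≤ j → k ∈ γ

/-- In dimension `d` the restricted density polynomial Hales-Jewett statement holds at all densities above
`θ` with `γ` restricted to the sets for which `Φ` holds: for all `δ > θ` and all large `N`, every family of at
least `δ 2^(N^d)` subsets of `[N]^d` contains `A` and `A ∪ γ^d` for some nonempty `γ` with `Φ` and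
`A ∩ γ^d = ∅`. -/
def Suffices (d : ℕ) (θ : ℝ) (Φ : ∀ {N : ℕ}, Finset (Fin N) → Prop) : Prop :=
  ∀ δ : ℝ, θ < δ → ∃ N₀ : ℕ, ∀ N : ℕ, N₀ ≤ N → ∀ S : Finset (Finset (Fin d → Fin N)),
    δ * (2 : ℝ) ^ (N ^ d) ≤ S.card → ∃ A ∈ S, ∃ γ : Finset (Fin N), γ.Nonempty ∧ Φ γ ∧
      Disjoint A (cube d γ) ∧ A ∪ cube d γ ∈ S

/-- The vectors `(ℓ, ℓ², ..., ℓ^d)`, `ℓ ∈ L` positive, are recurrent: for every `δ > 0` and all large `n`, every
set of at least `δ n^d` points of `{0, ..., n - 1}^d` contains `x` and `x + (ℓ, ℓ², ..., ℓ^d)` for some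
positive `ℓ ∈ L`. -/
def Recurrent (d : ℕ) (L : Set ℕ) : Prop :=
  ∀ δ : ℝ, 0 < δ → ∃ n₀ : ℕ, ∀ n : ℕ, n₀ ≤ n → ∀ X : Finset (Fin d → ℕ), (∀ x ∈ X, ∀ j, x j < n) →
    δ * (n : ℝ) ^ d ≤ X.card → ∃ x ∈ X, ∃ l ∈ L, 1 ≤ l ∧ (fun j : Fin d => x j + l ^ ((j : ℕ) + 1)) ∈ X

lemma intervals_of_recurrent {L : Set ℕ} (hL : Recurrent 1 L) :
    Suffices 1 0 (fun {_} γ => IsInterval γ ∧ γ.card ∈ L) := by
  classical
  intro δ hδ
  have h := Pool.Agent.K4H98.Which.intervals_one L (by
    intro ε hε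
    obtain ⟨n₀, hn₀⟩ := hL ε hε
    refine ⟨n₀ + 1, by omega, fun X hX hXc => ?_⟩
    have hinj : Function.Injective fun (x : ℕ) (_ : Fin 1) => x := fun x y h => congrFun h 0
    obtain ⟨x, hx, l, hl, hl1, hxl⟩ := hn₀ (n₀ + 1) (by omega) (X.image fun x _ => x) (by
      intro x hx j
      obtain ⟨y, hy, rfl⟩ := mem_image.1 hx
      exact mem_range.1 (hX hy)) (by
      rw [card_image_of_injective _ hinj, pow_one]
      exact hXc)
    obtain ⟨y, hy, rfl⟩ := mem_image.1 hx
    obtain ⟨z, hz, hzy⟩ := mem_image.1 hxl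
    have h1 := congrFun hzy 0
    simp only [Fin.val_zero, zero_add, pow_one] at h1
    subst h1
    exact ⟨y, hy, l, hl, hl1, hz⟩) δ hδ
  obtain ⟨N₀, hN₀⟩ := h
  refine ⟨N₀, fun N hN S hS => ?_⟩
  obtain ⟨A, hA, γ, hγ, hγL, hγI, hdis, hAγ⟩ := hN₀ N hN S hS
  exact ⟨A, hA, γ, hγ, ⟨hγI, hγL⟩, hdis, hAγ⟩

lemma recurrent_all : Recurrent 1 Set.univ := by
  intro δ hδ
  obtain ⟨n₀, hn₀⟩ := exists_nat_gt (1 / δ)
  refine ⟨n₀, fun n hn X _ hXc => ?_⟩
  have h1 : 1 < δ * n := by
    rw [div_lt_iff₀ hδ] at hn₀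
    have : (n₀ : ℝ) ≤ n := by exact_mod_cast hn
    nlinarith
  rw [pow_one] at hXc
  have h2 : 1 < X.card := by
    have : (1 : ℝ) < X.card := lt_of_lt_of_le h1 hXc
    exact_mod_cast this
  obtain ⟨x, hx, y, hy, hxy⟩ := one_lt_card.1 h2
  have h3 : x 0 ≠ y 0 := by
    intro h
    apply hxy
    funext j
    rw [Subsingleton.elim j 0]
    exact h
  have key : ∀ x y : Fin 1 → ℕ, x ∈ X → y ∈ X → x 0 < y 0 →
      ∃ x ∈ X, ∃ l ∈ (Set.univ : Set ℕ), 1 ≤ l ∧ (fun j : Fin 1 => x j + l ^ ((j : ℕ) + 1)) ∈ X := by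
    intro x y hx hy hlt
    refine ⟨x, hx, y 0 - x 0, Set.mem_univ _, by omega, ?_⟩
    have : (fun j : Fin 1 => x j + (y 0 - x 0) ^ ((j : ℕ) + 1)) = y := by
      funext j
      rw [Subsingleton.elim j 0]
      simp only [Fin.val_zero, zero_add, pow_one]
      omega
    rw [this]
    exact hy
  rcases Nat.lt_or_gt_of_ne h3 with h | h
  · exact key x y hx hy h
  · exact key y x hy hx h

/-- **Which sets `γ` are needed.**

1. (a) For all `d`, `N ≥ 1` and every system `Γ` of nonempty subsets of `[N]` such that `Γ ∪ {∅}` has VC dimension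
   at most `d` there is a family of exactly half of the subsets of `[N]^d` which contains exactly one of `A`
   and `A ∆ γ^d` for all `A` and `γ ∈ Γ`. (b) If `T ⊆ [N]` has `d + 1` elements, every family of density above
   `(2^d - 1)/(2^(d+1) - 1)` contains `A` and `A ∆ γ^d` for some nonempty `γ ⊆ T`. (c) In the restricted form the
   sets `γ` of diameter at most `d` (which have at most `d + 1` elements) suffice at all densities above
   `(2^d - 1)/(2^(d+1) - 1)`.
2. For `d ≥ 2`, all `k` and all `N` there is a family of density at least `1/(k+1)` which does not contain `A`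
   and `A ∪ γ^d`, `A ∩ γ^d = ∅`, for any nonempty `γ` which is a union of at most `k` intervals; for `d = 1`
   intervals suffice at all positive densities.
3. For all `d`, if sets `γ` with `|γ| ∈ L` suffice at all positive densities in dimension `d`, the vectors
   `(ℓ, ℓ², ..., ℓ^d)`, `ℓ ∈ L`, are recurrent. For `d = 1` the following are equivalent: sets with sizes in `L`
   suffice; intervals with sizes in `L` suffice; `L` is recurrent. -/
theorem result :
    (∀ d N : ℕ, 1 ≤ N → ∀ Γ : Finset (Finset (Fin N)), (∀ γ ∈ Γ, γ.Nonempty) →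
      (insert ∅ Γ).vcDim ≤ d → ∃ S : Finset (Finset (Fin d → Fin N)), 2 * S.card = 2 ^ N ^ d ∧
        ∀ A, ∀ γ ∈ Γ, (A ∈ S ↔ symmDiff A (cube d γ) ∉ S)) ∧
    (∀ d N : ℕ, 1 ≤ d → ∀ T : Finset (Fin N), T.card = d + 1 →
      ∀ S : Finset (Finset (Fin d → Fin N)), (2 ^ d - 1) * 2 ^ N ^ d < (2 ^ (d + 1) - 1) * S.card →
        ∃ A ∈ S, ∃ γ : Finset (Fin N), γ.Nonempty ∧ γ ⊆ T ∧ symmDiff A (cube d γ) ∈ S) ∧
    (∀ d : ℕ, 1 ≤ d → Suffices d (((2 : ℝ) ^ d - 1) / (2 ^ (d + 1) - 1))
      (fun {_} γ => ∀ i ∈ γ, ∀ j ∈ γ, (j : ℕ) ≤ i + d)) ∧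
    (∀ d k N : ℕ, 2 ≤ d → ∃ S : Finset (Finset (Fin d → Fin N)), 2 ^ N ^ d ≤ (k + 1) * S.card ∧
      ∀ A ∈ S, ∀ γ : Finset (Fin N), γ.Nonempty → intervals γ ≤ k → Disjoint A (cube d γ) →
        A ∪ cube d γ ∉ S) ∧
    Suffices 1 0 (fun {_} γ => IsInterval γ) ∧
    (∀ d : ℕ, ∀ L : Set ℕ, Suffices d 0 (fun {_} γ => γ.card ∈ L) → Recurrent d L) ∧
    (∀ L : Set ℕ, (Suffices 1 0 (fun {_} γ => γ.card ∈ L) ↔ Recurrent 1 L) ∧
      (Suffices 1 0 (fun {_} γ => IsInterval γ ∧ γ.card ∈ L) ↔ Recurrent 1 L)) := by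
  have hnec : ∀ d : ℕ, ∀ L : Set ℕ, Suffices d 0 (fun {_} γ => γ.card ∈ L) → Recurrent d L := by
    intro d L h
    exact Pool.Agent.K4H98.Which.sizes_necessary L h
  refine ⟨fun d N hN Γ hΓ hd => Pool.Agent.K4H98.Which.half_of_vcDim hN Γ hΓ hd,
    fun d N hd T hT S hS => Pool.Agent.K4H98.Which.odd_cycle hd T hT S hS, ?_,
    fun d k N hd => Pool.Agent.K4H98.Which.intervals hd, ?_, hnec, ?_⟩
  · intro d hd δ hδ
    obtain ⟨N₀, hN₀⟩ := Pool.Agent.K4H98.Which.small_sets d hd δ hδ
    refine ⟨N₀, fun N hN S hS => ?_⟩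
    obtain ⟨A, hA, γ, hγ, -, h1, h2, h3⟩ := hN₀ N hN S hS
    exact ⟨A, hA, γ, hγ, h1, h2, h3⟩
  · intro δ hδ
    obtain ⟨N₀, hN₀⟩ := intervals_of_recurrent recurrent_all δ hδ
    refine ⟨N₀, fun N hN S hS => ?_⟩
    obtain ⟨A, hA, γ, hγ, h1, h2, h3⟩ := hN₀ N hN S hS
    exact ⟨A, hA, γ, hγ, h1.1, h2, h3⟩
  · intro L
    have h1 : Suffices 1 0 (fun {_} γ => IsInterval γ ∧ γ.card ∈ L) →
        Suffices 1 0 (fun {_} γ => γ.card ∈ L) := by
      intro h δ hδ
      obtain ⟨N₀, hN₀⟩ := h δ hδ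
      refine ⟨N₀, fun N hN S hS => ?_⟩
      obtain ⟨A, hA, γ, hγ, h1, h2, h3⟩ := hN₀ N hN S hS
      exact ⟨A, hA, γ, hγ, h1.2, h2, h3⟩
    exact ⟨⟨hnec 1 L, fun h => h1 (intervals_of_recurrent h)⟩,
      ⟨fun h => hnec 1 L (h1 h), intervals_of_recurrent⟩⟩

end Pool.Agent.Results.MP_90b327_co.WhichGamma
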